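import Mathlib
import Pool.Agent.Y731.MI.Main

set_option autoImplicit false

/-!
# MP_8865d3_nt: Vojta's conjecture with the multiplier ideal correction term, for all smooth
# projective varieties over `ℚ` and ALL ideals, at the rational points with sparse coordinates

`X` is a smooth projective variety of dimension `N` over `ℚ` in `ℙ^(N + s)` with the equations
`G k = 0`. The ideal sheaf `I ≠ 0` on `X` is generated by the forms `f j` (every ideal sheaf is of
this kind). No resolution of singularities is chosen: the multiplier ideal `I⁻` is described by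
valuations. For a real valuation `w` of the function field of `X` (it has a centre on `X`) let
`A(w)` be the log discrepancy. A form `u` is in `I⁻` if and only if `w(u) + A(w) ≥ w(I)` for all
`w`. The log discrepancy is described by logarithmic differential forms: with `|·| = exp (- w)`
(normalised such that the maximum of the `|x_i|` is `1`) the number `exp (- A(w))` is the norm of
the canonical sheaf of `X` at the centre of `w`, where a differential form has norm at most `r` if
it is a combination of forms `dlog p_1 ∧ ⋯ ∧ dlog p_N` with coefficients of norm at most `r`. (On a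
log resolution `(X', E)` with a monomial valuation `w` in local coordinates `t_i` the form
`dlog t_1 ∧ ⋯ ∧ dlog t_N` has norm `1`, hence `A(w) = w(K_{X'/X}) + w(E)`.) The forms on `X` with
values in `O(N + 1)` are the forms of degree `N + 1` on the affine cone over `X`, whose generators
are the `dx_{J 0} ∧ ⋯ ∧ dx_{J N}`.

The points considered: `Γ` is a finitely generated group of nonzero rational numbers (for instance
all units outside finitely many primes), `k` a number; the coprime integral coordinates of `x` are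
sums of `k` products of elements of `Γ` and integers of absolute value at most `M`.
-/

namespace Pool.Agent.Results.MP_8865d3_nt.AllIdealsSparsePoints

open MvPolynomial

/-- `x` is a primitive integer vector; every rational point of a projective space is represented by
exactly two of them, `x` and `-x` -/
def IsPrimitive {n : ℕ} (x : Fin n → ℤ) : Prop :=
  Finset.univ.gcd x = 1

/-- `max |x_i|`, the multiplicative height of the point given by a primitive `x` -/
def height {n : ℕ} (x : Fin n → ℤ) : ℕ :=
  Finset.univ.sup (fun i => (x i).natAbs)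

/-- `x` is a point of the variety `X` -/
def OnX {n g : ℕ} (G : Fin g → MvPolynomial (Fin n) ℤ) (x : Fin n → ℤ) : Prop :=
  ∀ k, eval x (G k) = 0

/-- `P` vanishes on `X`: at all points of the affine cone over `X` with complex coordinates. -/
def Vanishes {n g : ℕ} (G : Fin g → MvPolynomial (Fin n) ℤ) (P : MvPolynomial (Fin n) ℤ) : Prop :=
  ∀ z : Fin n → ℂ, (∀ k, aeval z (G k) = 0) → aeval z P = 0

/-- `X` is irreducible over `ℚ`. -/
def IsIrreducible {n g : ℕ} (G : Fin g → MvPolynomial (Fin n) ℤ) : Prop :=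
  ∀ P Q : MvPolynomial (Fin n) ℤ, Vanishes G (P * Q) → Vanishes G P ∨ Vanishes G Q

/-- The dimension of `X` is at least `N`: some `N + 1` coordinates are algebraically independent on
the cone over `X`. -/
def DimGE {n g : ℕ} (N : ℕ) (G : Fin g → MvPolynomial (Fin n) ℤ) : Prop :=
  ∃ J : Fin (N + 1) → Fin n, ∀ P : MvPolynomial (Fin (N + 1)) ℤ, Vanishes G (rename J P) → P = 0

/-- `X` is smooth of codimension `s`: at each point of `X` with complex coordinates some `s`
equations of `X` have linearly independent gradients. -/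
def IsSmooth {n g : ℕ} (s : ℕ) (G : Fin g → MvPolynomial (Fin n) ℤ) : Prop :=
  ∀ z : Fin n → ℂ, z ≠ 0 → (∀ k, aeval z (G k) = 0) →
    ∃ K : Fin s → Fin g, LinearIndependent ℂ
      (fun (i : Fin s) (y : Fin n) => aeval z (pderiv y (G (K i))))

/-- The valuation `w` (written multiplicatively, `w = exp (- v)` for the additive valuation `v`)
gives a real valuation of the function field of `X`, by its values on quotients of forms of the same
degree. It is trivial on `ℚ` and normalised by `max_i w(x_i) = 1`, so `w(P) = |P / x_i ^ deg P|` for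
the forms `P`, if `w(x_i) = 1`. All real valuations of the function field are of this kind. -/
def IsPlace {n g : ℕ} (G : Fin g → MvPolynomial (Fin n) ℤ)
    (w : Valuation (MvPolynomial (Fin n) ℤ) NNReal) : Prop :=
  (∀ c : ℤ, c ≠ 0 → w (C c) = 1) ∧ (∀ i, w (X i) ≤ 1) ∧ (∃ i, w (X i) = 1) ∧
    ∀ (P : MvPolynomial (Fin n) ℤ) (e : ℕ), P.IsHomogeneous e → (w P = 0 ↔ Vanishes G P)

/-- The value `dP(t)` of the differential of `P` at the point `z`. -/
noncomputable def dif {n : ℕ} (P : MvPolynomial (Fin n) ℤ) (z t : Fin n → ℂ) : ℂ :=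
  ∑ y, aeval z (pderiv y P) * t y

/-- On the affine cone over `X`,
`dx_{J 0} ∧ ⋯ ∧ dx_{J N} = ∑_k (h_k / q) dlog p_{k 0} ∧ ⋯ ∧ dlog p_{k N}`
for forms `p_{k i}` not zero on `X` and quotients `h_k / q` of forms, of degree `N + 1`, with
`w(h_k / q) ≤ r`. The identity is written out at the points `z` where it is defined, for all tangent
vectors `t_0, …, t_N` at `z`. -/
def LogBound {n g : ℕ} (G : Fin g → MvPolynomial (Fin n) ℤ) (N : ℕ)
    (w : Valuation (MvPolynomial (Fin n) ℤ) NNReal) (J : Fin (N + 1) → Fin n) (r : NNReal) : Prop :=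
  ∃ (T e : ℕ) (q : MvPolynomial (Fin n) ℤ) (h : Fin T → MvPolynomial (Fin n) ℤ)
    (p : Fin T → Fin (N + 1) → MvPolynomial (Fin n) ℤ),
    q.IsHomogeneous e ∧ w q ≠ 0 ∧
    (∀ k, (h k).IsHomogeneous (e + (N + 1)) ∧ w (h k) ≤ r * w q) ∧
    (∀ k i, (∃ d, (p k i).IsHomogeneous d) ∧ w (p k i) ≠ 0) ∧
    ∀ (z : Fin n → ℂ) (t : Fin (N + 1) → Fin n → ℂ), (∀ k, aeval z (G k) = 0) →
      (∀ i k, dif (G k) z (t i) = 0) → aeval z q ≠ 0 → (∀ k i, aeval z (p k i) ≠ 0) →
      (Matrix.of fun i j => t i (J j)).det =
        ∑ k, aeval z (h k) / aeval z q *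
          (Matrix.of fun i j => dif (p k j) z (t i) / aeval z (p k j)).det

/-- `exp (- A(w)) ≤ r` for the log discrepancy `A(w)`: the norms of all `dx_{J 0} ∧ ⋯ ∧ dx_{J N}`
are at most `r`. -/
def LogDiscrepancyGE {n g : ℕ} (G : Fin g → MvPolynomial (Fin n) ℤ) (N : ℕ)
    (w : Valuation (MvPolynomial (Fin n) ℤ) NNReal) (r : NNReal) : Prop :=
  ∀ (J : Fin (N + 1) → Fin n) (r' : NNReal), r < r' → LogBound G N w J r'

/-- The form `u` is in the multiplier ideal `I⁻` of the ideal `I` generated by the forms `f j`: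
`w(u) exp (- A(w)) ≤ max_j w(f j)`, that is, `v(u) + A(v) ≥ v(I)` additively, for all real
valuations of the function field of `X`. -/
def InMultiplierIdeal {n g a : ℕ} (G : Fin g → MvPolynomial (Fin n) ℤ) (N : ℕ)
    (f : Fin a → MvPolynomial (Fin n) ℤ) (u : MvPolynomial (Fin n) ℤ) : Prop :=
  ∀ w : Valuation (MvPolynomial (Fin n) ℤ) NNReal, IsPlace G w →
    ∃ r : NNReal, LogDiscrepancyGE G N w r ∧ w u * r ≤ ⨆ j, w (f j)

/-- The local height at the infinite place of the ideal generated by the forms `f j` of degree `d j`,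
at a primitive `x`: minus the logarithm of `max_j |f j x| / max |x_i| ^ d j`. -/
noncomputable def localHeightInf {n a : ℕ} (f : Fin a → MvPolynomial (Fin n) ℤ) (d : Fin a → ℕ)
    (x : Fin n → ℤ) : ℝ :=
  -Real.log (⨆ j, |((eval x (f j) : ℤ) : ℝ)| / (height x : ℝ) ^ d j)

/-- The local height at the prime `p` of the ideal generated by the forms `f j`, at a primitive `x`:
minus the logarithm of `max_j |f j x|_p`. -/
noncomputable def localHeight {n a : ℕ} (f : Fin a → MvPolynomial (Fin n) ℤ) (p : ℕ)
    (x : Fin n → ℤ) : ℝ :=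
  -Real.log (⨆ j, ((padicNorm p ((eval x (f j) : ℤ) : ℚ) : ℚ) : ℝ))

/-- The sum of the local heights at the infinite place and at the primes `p ∈ S`. -/
noncomputable def proximity {n a : ℕ} (f : Fin a → MvPolynomial (Fin n) ℤ) (d : Fin a → ℕ)
    (S : Finset ℕ) (x : Fin n → ℤ) : ℝ :=
  localHeightInf f d x + ∑ p ∈ S, localHeight f p x

/-- The columns of `A` are a basis of the tangent space of the affine cone over `X` at `x` (the
vectors orthogonal to all gradients of equations), `X` being smooth of dimension `N` at `x`. -/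
def IsTangentBasis {n N g : ℕ} (G : Fin g → MvPolynomial (Fin n) ℤ) (x : Fin n → ℤ)
    (A : Matrix (Fin n) (Fin (N + 1)) ℤ) : Prop :=
  LinearIndependent ℚ (fun c : Fin (N + 1) => fun j : Fin n => (A j c : ℚ)) ∧
    ∀ k c, ∑ j, eval x (pderiv j (G k)) * A j c = 0

/-- The maximal minor of `A` with the rows `J`. -/
def minor {n N : ℕ} (A : Matrix (Fin n) (Fin (N + 1)) ℤ) (J : Fin (N + 1) → Fin n) : ℤ :=
  (A.submatrix J id).det

/-- The height `h_K(x)` for the canonical class `K` of `X`. The Gauss map `γ` sends a point of `X` to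
its embedded tangent space, `γ^* O(1) = K + (N + 1) H` for the hyperplane class `H`, and `h_K(x)` is
the height of `γ(x)` (the logarithm of the maximum of the absolute values of the Plücker coordinates,
divided by their greatest common divisor) minus `(N + 1) h(x)`. -/
noncomputable def canonicalHeight {n N : ℕ} (x : Fin n → ℤ) (A : Matrix (Fin n) (Fin (N + 1)) ℤ) :
    ℝ :=
  Real.log (((Finset.univ.sup (fun J : Fin (N + 1) → Fin n => (minor A J).natAbs) : ℕ) : ℝ) /
    ((Finset.univ.gcd (fun J : Fin (N + 1) → Fin n => minor A J) : ℤ) : ℝ)) -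
    (N + 1) * Real.log (height x)

/-- The integer `z` is a sum of `k` products of elements of `Γ` and integers of absolute value at
most `M`. -/
def Sparse (Γ : Subgroup ℚˣ) (k : ℕ) (M : ℝ) (z : ℤ) : Prop :=
  ∃ (u : Fin k → Γ) (a : Fin k → ℤ), (∀ j, |(a j : ℝ)| ≤ M) ∧
    (z : ℚ) = ∑ j, ((u j : ℚˣ) : ℚ) * a j

/-- **Main theorem.** Let `X` be a smooth projective variety of dimension `N` over `ℚ` in
`ℙ^(N + s)`, let `I ≠ 0` be ANY ideal sheaf on `X`, generated by forms `f j`, and let the forms `u j`
generate the multiplier ideal `I⁻` (or be any finite family in `I⁻`, not all zero on `X`; for a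
generating family the second proximity function is the one of `I⁻`, else it is larger). Let `Γ` be a
finitely generated group of nonzero rational numbers, `S` a finite set of primes, `k` a number and
`ε > 0`. There are a form `Φ` that does not vanish on `X` and a constant `C` such that for all
`M ≥ 1` all rational points `x` of `X` off `Φ = 0` whose coordinates are sums of `k` products of
elements of `Γ` and integers of absolute value at most `M` satisfy
`h_K(x) + ∑_{v ∈ S ∪ {∞}} λ_I(x, v) - ∑_{v ∈ S ∪ {∞}} λ_{I⁻}(x, v) ≤ ε h(x) + C (1 + log M)`. -/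
theorem result (N s g a r k : ℕ) (G : Fin g → MvPolynomial (Fin (N + 1 + s)) ℤ)
    (e : Fin g → ℕ) (hG : ∀ k, (G k).IsHomogeneous (e k))
    (hirr : IsIrreducible G) (hdim : DimGE N G) (hsm : IsSmooth s G)
    (f : Fin a → MvPolynomial (Fin (N + 1 + s)) ℤ) (d : Fin a → ℕ)
    (hf : ∀ j, (f j).IsHomogeneous (d j)) (hf0 : ∃ j, ¬ Vanishes G (f j))
    (u : Fin r → MvPolynomial (Fin (N + 1 + s)) ℤ) (c : Fin r → ℕ)
    (hu : ∀ j, (u j).IsHomogeneous (c j)) (hu0 : ∃ j, ¬ Vanishes G (u j))
    (hmult : ∀ j, InMultiplierIdeal G N f (u j))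
    (Γ : Subgroup ℚˣ) (hΓ : Γ.FG) (S : Finset ℕ) (hS : ∀ p ∈ S, p.Prime) (ε : ℝ) (hε : 0 < ε) :
    ∃ (Φ : MvPolynomial (Fin (N + 1 + s)) ℤ) (m : ℕ) (C : ℝ), Φ.IsHomogeneous m ∧
      ¬ Vanishes G Φ ∧
      ∀ M : ℝ, 1 ≤ M → ∀ x : Fin (N + 1 + s) → ℤ, IsPrimitive x → OnX G x →
        (∀ i, Sparse Γ k M (x i)) → eval x Φ ≠ 0 →
        ∀ A : Matrix (Fin (N + 1 + s)) (Fin (N + 1)) ℤ, IsTangentBasis G x A →
          canonicalHeight x A + proximity f d S x - proximity u c S x ≤
            ε * Real.log (height x) + C * (1 + Real.log M) := by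
  classical
  obtain ⟨J, hJ⟩ := hdim
  obtain ⟨j0, hj0⟩ := hf0
  obtain ⟨k0, hk0⟩ := hu0
  obtain ⟨Φ, C, ⟨m, hm⟩, hΦ0, hmain⟩ := Pool.Agent.Y731.MI.miMain N s g a r k G e hG hirr hsm J hJ
    f d hf j0 hj0 u c hu k0 hk0 hmult Γ hΓ S hS ε hε
  refine ⟨Φ, m, C, hm, hΦ0, fun M hM x hx hX hxs hΦ A hA => ?_⟩
  exact hmain M hM x hx hX hxs hΦ A (by
      intro κ hκ ρ
      have h5 := Fintype.linearIndependent_iff.1 hA.1 κ (by
        funext j
        rw [Finset.sum_apply, Pi.zero_apply, ← hκ j]
        exact Finset.sum_congr rfl fun c _ => by rw [Pi.smul_apply, smul_eq_mul])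
      exact h5 ρ) (fun ρ j => by
        rw [← hA.2 j ρ]
        exact Finset.sum_congr rfl fun c _ => mul_comm _ _)

end Pool.Agent.Results.MP_8865d3_nt.AllIdealsSparsePoints
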