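import Pool.Agent.Results.MP_8865d3_nt.MonomialIdeals
import Pool.Agent.Y854.GM.Win

/-!
# Vojta's conjecture with multiplier ideals on Fermat intersections above all points of windows of heights

Let `a_0, …, a_{q-1}` be linear forms in `n + 1` variables over a number field `K`, any `n + 1` of them linearly
independent, `κ ≥ 0`, and let `v ≥ 1` be a sequence with exponent of convergence at most `τ` (for `v_k = k ^ b` this is
`1 / b`, for `v_k = b ^ k` it is `0`) and `θ < 1`. For all `α > 0` outside a set of Hausdorff dimension at most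
`(exponent(n, q, κ) / (n + 1) + τ) / (1 - θ)` and every `c`, for all but finitely many `k`, for ALL points `x ∈ ℙ^n(K)` off
the hyperplanes with `|H_K(x) ^ (n + 1) - α v_k| ≤ v_k ^ θ`, ALL `m ≥ 1`, ALL points `P` above `x` of the Fermat
intersection `X_m`, ALL monomial ideals `I` and ALL finite sets `S` of primes
`(κ m - q) h(P) + ∑_{v ∈ S ∪ {∞}} (λ_I - λ_{I⁻})(P, v) ≤ d(L) + ∑_{p ∈ S} log p - c`.
-/

set_option autoImplicit false

namespace Pool.Agent.Results.MP_8865d3_nt.MonomialWindows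

open NumberField IsDedekindDomain LinearAlgebra.Projectivization
open MonomialIdeals (lin baseHeight height proximity logDisc exponent exceptional)

/-- the exponent of convergence of the sequence `v` is at most `τ` -/
def ExpLe (v : ℕ → ℝ) (τ : ℝ) : Prop := ∀ t : ℝ, τ < t → Summable (fun n : ℕ => (v n) ^ (-t))

lemma expo_lt {n r : ℕ} (hn : 1 ≤ n) (hr : n + 1 ≤ r) {κ : ℝ} (hκ : κ < r) : exponent n r κ < n + 1 := by
  have hn0 : (1 : ℝ) ≤ n := by exact_mod_cast hn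
  have hr0 : (n : ℝ) + 1 ≤ r := by exact_mod_cast hr
  refine lt_of_le_of_lt (min_le_right _ _) ?_
  have h1 : 0 < (n : ℝ) * ((r : ℝ) - κ) / ((r : ℝ) * ((r : ℝ) - 1)) := by
    apply div_pos
    · exact mul_pos (by linarith) (by linarith)
    · exact mul_pos (by linarith) (by linarith)
  nlinarith

lemma expo_nonneg {n r : ℕ} (hn : 1 ≤ n) (hr : n + 1 ≤ r) {κ : ℝ} (hκ : 0 ≤ κ) : 0 ≤ exponent n r κ := by
  have hn0 : (1 : ℝ) ≤ n := by exact_mod_cast hn
  have hr0 : (n : ℝ) + 1 ≤ r := by exact_mod_cast hr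
  refine le_min (mul_nonneg hκ ?_) (mul_nonneg (by linarith) ?_)
  · have h1 : ((r - n).choose (n + 1) : ℝ) ≤ (r.choose (n + 1) : ℝ) := by
      exact_mod_cast Nat.choose_le_choose (n + 1) (Nat.sub_le r n)
    have h2 : (0 : ℝ) < (r.choose (n + 1) : ℝ) := by
      exact_mod_cast Nat.choose_pos hr
    rw [sub_nonneg, div_le_one h2]
    exact h1
  · rw [sub_nonneg, div_le_one (mul_pos (by linarith) (by linarith))]
    nlinarith

lemma count (K : Type) [Field K] [NumberField K] {n q : ℕ} (hn : 1 ≤ n) (hq : n + 1 ≤ q)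
    (a : Fin q → Fin (n + 1) → K)
    (ha : ∀ I : Finset (Fin q), I.card = n + 1 → LinearIndependent K (fun i : I => a i))
    (κ c ε : ℝ) (hκ : 0 ≤ κ) (hε : 0 < ε) :
    ∃ C : ℝ, ∀ X : ℝ, 1 ≤ X →
      {x | x ∈ (⋃ B : ℝ, exceptional a κ c B) ∧ x.mulHeight ^ (n + 1) ≤ X}.Finite ∧
      ({x | x ∈ (⋃ B : ℝ, exceptional a κ c B) ∧ x.mulHeight ^ (n + 1) ≤ X}.ncard : ℝ) ≤
        C * X ^ (exponent n q κ / (n + 1) + ε) := by
  have hd : (0 : ℝ) < (Module.finrank ℚ K : ℝ) := by exact_mod_cast Module.finrank_pos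
  obtain ⟨M, hM⟩ := MonomialIdeals.result K n q hn hq a ha κ c
    ((n + 1) * (Module.finrank ℚ K : ℝ) * ε) hκ (by positivity)
  set d : ℝ := (Module.finrank ℚ K : ℝ) with hd'
  have hn0 : (0 : ℝ) < (n : ℝ) + 1 := by positivity
  refine ⟨M, fun X hX => ?_⟩
  have hX0 : 0 < X := by linarith
  have hB : 1 ≤ X ^ (1 / ((n + 1) * d)) := Real.one_le_rpow hX (by positivity)
  obtain ⟨hfin, hcard⟩ := hM (X ^ (1 / ((n + 1) * d))) hB
  have hsub : {x | x ∈ (⋃ B : ℝ, exceptional a κ c B) ∧ x.mulHeight ^ (n + 1) ≤ X} ⊆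
      exceptional a κ c (X ^ (1 / ((n + 1) * d))) := by
    rintro x ⟨hx, hxX⟩
    obtain ⟨B, hx2⟩ := Set.mem_iUnion.1 hx
    refine ⟨hx2.1, ?_, hx2.2.2⟩
    have h1 : 0 < x.mulHeight := x.mulHeight_pos
    have h2 : Real.log (x.mulHeight ^ (n + 1)) ≤ Real.log X := Real.log_le_log (by positivity) hxX
    rw [Real.log_pow] at h2
    rw [← Real.le_log_iff_exp_le (Real.rpow_pos_of_pos hX0 _), Real.log_rpow hX0]
    unfold baseHeight
    rw [← hd', div_le_iff₀ hd]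
    push_cast at h2
    have h3 : Real.log x.mulHeight ≤ Real.log X / (n + 1) := by
      rw [le_div_iff₀ hn0]
      linarith
    refine h3.trans (le_of_eq ?_)
    field_simp
  refine ⟨hfin.subset hsub, ?_⟩
  have h4 : ({x | x ∈ (⋃ B : ℝ, exceptional a κ c B) ∧ x.mulHeight ^ (n + 1) ≤ X}.ncard : ℝ) ≤
      ((exceptional a κ c (X ^ (1 / ((n + 1) * d)))).ncard : ℝ) := by
    exact_mod_cast Set.ncard_le_ncard hsub hfin
  refine (h4.trans hcard).trans (le_of_eq ?_)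
  rw [← Real.rpow_mul hX0.le]
  congr 2
  field_simp

/-- **Theorem.** Let `K` be a number field, `n ≥ 1`, `q ≥ n + 1`, `a_0, …, a_{q-1}` linear forms in `n + 1` variables
over `K`, any `n + 1` of them linearly independent, and `κ ≥ 0`. (The exponent `exponent(n, q, κ)` is smaller than `n + 1`
for `κ < q`.) Let `v ≥ 1` be a sequence of exponent of convergence at most `τ ≥ 0` and `θ < 1`. There is a set `E` of
Hausdorff dimension at most `(exponent(n, q, κ) / (n + 1) + τ) / (1 - θ)` such that for each `α > 0` outside `E` and each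
`c`, for all but finitely many `k`: for ALL `x ∈ ℙ^n(K)` off the hyperplanes with `|H_K(x) ^ (n + 1) - α v_k| ≤ v_k ^ θ`,
ALL `m ≥ 1`, ALL points `P` of `X_m` above `x`, over any number field `L`, ALL monomial ideals `I` and ALL finite sets `S`
of primes `(κ m - q) h(P) + ∑_{v ∈ S ∪ {∞}} (λ_I - λ_{I⁻})(P, v) ≤ d(L) + ∑_{p ∈ S} log p - c`. The sequences
`v_k = (k + 1) ^ b` and `v_k = b ^ k` have exponent of convergence at most `1 / b` and `0`. -/
theorem result :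
    (∀ (K : Type) [Field K] [NumberField K] (n q : ℕ), 1 ≤ n → n + 1 ≤ q → ∀ a : Fin q → Fin (n + 1) → K,
      (∀ I : Finset (Fin q), I.card = n + 1 → LinearIndependent K (fun i : I => a i)) →
      ∀ κ : ℝ, 0 ≤ κ →
      (κ < q → exponent n q κ < n + 1) ∧
      ∀ (v : ℕ → ℝ) (τ θ : ℝ), (∀ k, 1 ≤ v k) → 0 ≤ τ → ExpLe v τ → θ < 1 →
      ∃ E : Set ℝ, dimH E ≤ ENNReal.ofReal ((exponent n q κ / (n + 1) + τ) / (1 - θ)) ∧
        ∀ α : ℝ, 0 < α → α ∉ E → ∀ c : ℝ, ∃ k₀ : ℕ, ∀ k : ℕ, k₀ ≤ k → ∀ x : ℙ K (Fin (n + 1) → K),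
          (∀ i, lin (a i) x.rep ≠ 0) → |x.mulHeight ^ (n + 1) - α * v k| ≤ (v k) ^ θ →
            ∀ (m : ℕ) (L : Type) [Field L] [NumberField L] [Algebra K L] (y : Fin q → L) (t : L)
              (I : Finset (Fin q → ℕ)) (S : Finset ℕ), 1 ≤ m → t ≠ 0 →
              (∀ i, y i ^ m = t * algebraMap K L (lin (a i) x.rep)) → I.Nonempty → (∀ p ∈ S, p.Prime) →
                (κ * m - q) * height y + proximity S y I ≤ logDisc L + ∑ p ∈ S, Real.log p - c) ∧
    (∀ b : ℝ, 0 < b → ExpLe (fun k : ℕ => ((k : ℝ) + 1) ^ b) (1 / b)) ∧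
    (∀ b : ℝ, 1 < b → ExpLe (fun k : ℕ => b ^ k) 0) := by
  refine ⟨fun K _ _ n q hn hq a ha κ hκ => ⟨fun h => expo_lt hn hq h, fun v τ θ hv hτ hE hθ1 => ?_⟩,
    fun κ hκ => Pool.Agent.Y854.GM.expLe_pow κ hκ, fun b hb => Pool.Agent.Y854.GM.expLe_geom b hb⟩
  have hs : 0 ≤ exponent n q κ / (n + 1) := div_nonneg (expo_nonneg hn hq hκ) (by positivity)
  have hall : ∀ m : ℕ, ∃ E : Set ℝ, dimH E ≤ ENNReal.ofReal ((exponent n q κ / (n + 1) + τ) / (1 - θ)) ∧
      ∀ α : ℝ, 0 < α → α ∉ E → ∃ n0 : ℕ, ∀ n' : ℕ, n0 ≤ n' →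
        ∀ x ∈ (⋃ B : ℝ, exceptional a κ (-(m : ℝ)) B), (v n') ^ θ < |x.mulHeight ^ (n + 1) - α * v n'| := fun m =>
    Pool.Agent.Y854.GM.windows (⋃ B : ℝ, exceptional a κ (-(m : ℝ)) B) (fun x => x.mulHeight ^ (n + 1)) hv hτ hE
      hs hθ1 (fun ε hε => count K hn hq a ha κ (-(m : ℝ)) ε hκ hε)
  choose E hE1 hE2 using hall
  refine ⟨⋃ m, E m, ?_, fun α hα hαE c => ?_⟩
  · rw [dimH_iUnion]
    exact iSup_le hE1
  · obtain ⟨j, hj⟩ := exists_nat_ge c
    obtain ⟨k₀, hk⟩ := hE2 j α hα (fun h => hαE (Set.mem_iUnion.2 ⟨j, h⟩))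
    refine ⟨k₀, fun k hk1 x hx hw m L _ _ _ y t I S hm ht hy hI hS => ?_⟩
    by_contra hcon
    push Not at hcon
    refine absurd (hk k hk1 x (Set.mem_iUnion.2 ⟨Real.exp (baseHeight x), hx, le_refl _, m, L, inferInstance,
      inferInstance, inferInstance, y, t, I, S, hm, ht, hy, hI, hS, ?_⟩)) (not_lt.2 hw)
    linarith

end Pool.Agent.Results.MP_8865d3_nt.MonomialWindows
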