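import Pool.Agent.Y731.RD.Ide

/-!
# Vojta's inequality with multiplier ideal correction for all monomial ideals in random forms

Let `X : G_1 = ... = G_r = 0` in `ℙ^N` over `ℚ` and let `D_j : F_j = 0`, `j ≤ q`, be divisors on `X`,
where the `G_i`, `F_j` are forms of given degrees `e_i`, `k_j`, so that `K_X = (∑ e_i - N - 1) H`. For
all but a proportion `O(A ^ (-η / 2))` of the pairs `(G, F)` of tuples with integer coefficients at
most `A`, the following holds for *all* ideals `I` generated by monomials `∏ F_j ^ b_j` in the `F_j`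
(with any finite set of exponents `b`) and *all* rational points `x` of `X` off the `D_j` which are
cut out in `ℙ^N` by linear equations with coefficients at most `A` (such as all points of height at
most `A`), with `I⁻` the ideal given by Howald's formula:
`h_K(x) + ∑_{v ∈ S ∪ ∞} (λ_I(x,v) - λ_{I⁻}(x,v)) + (N_S(D,x) - N¹_S(D,x)) ≤
  ε log |x| - (q + r - η) log A + ∑ log ‖F_j‖₁`.

The last sum is at most `q log A + O(1)`, so the right side is at most
`ε log |x| - (r - η) log A + O(1)`, with `O(1)` depending only on `N` and the degrees.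

More generally the points may be restricted to any set with `O(B ^ a)` elements of height at most
`B`; then `N + 1` is replaced by `a`.
-/

set_option autoImplicit false

namespace Pool.Agent.Results.MP_8865d3_nt.RandomIdeals

open MvPolynomial

/-- The height (largest absolute value of a coordinate) of an integer vector. -/
def height {m : ℕ} (x : Fin m → ℤ) : ℕ := Finset.univ.sup fun i => (x i).natAbs

/-- The coordinates are coprime. -/
def Coprime {m : ℕ} (x : Fin m → ℤ) : Prop := ∀ d : ℤ, (∀ i, d ∣ x i) → IsUnit d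

/-- The point of `ℙ^N` with homogeneous coordinates `x` is cut out by linear equations with integer
coefficients of absolute value at most `A`: it is the only common zero of the linear forms with
such coefficients which vanish at it. -/
def CutOut {N : ℕ} (A : ℕ) (x : Fin (N + 1) → ℤ) : Prop :=
  ∀ y : Fin (N + 1) → ℚ,
    (∀ c : Fin (N + 1) → ℤ, (∀ j, |c j| ≤ A) → ∑ j, c j * x j = 0 → ∑ j, (c j : ℚ) * y j = 0) →
      ∃ t : ℚ, ∀ j, y j = t * x j

/-- The pairs `(G, F)` of tuples of forms of degrees `e i` and `k j` in `N + 1` variables with integer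
coefficients of absolute value at most `A`. -/
def Pairs (N : ℕ) {r q : ℕ} (e : Fin r → ℕ) (k : Fin q → ℕ) (A : ℕ) :
    Set ((Fin r → MvPolynomial (Fin (N + 1)) ℤ) × (Fin q → MvPolynomial (Fin (N + 1)) ℤ)) :=
  {P | (∀ i, (P.1 i).IsHomogeneous (e i) ∧ ∀ α, |coeff α (P.1 i)| ≤ (A : ℤ)) ∧
    ∀ j, (P.2 j).IsHomogeneous (k j) ∧ ∀ α, |coeff α (P.2 j)| ≤ (A : ℤ)}

/-- `‖F‖₁`, the sum of the absolute values of the coefficients of `F`. -/
noncomputable def norm1 {N : ℕ} (F : MvPolynomial (Fin (N + 1)) ℤ) : ℝ :=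
  ∑ α ∈ F.support, |((coeff α F : ℤ) : ℝ)|

/-- The local height at infinity of the divisor `F = 0`, for a form `F` of degree `k`, at the point
with homogeneous coordinates `x`: `log (‖F‖₁ |x| ^ k / |F(x)|)`. It is at least `0`. -/
noncomputable def localInf {N : ℕ} (F : MvPolynomial (Fin (N + 1)) ℤ) (k : ℕ)
    (x : Fin (N + 1) → ℤ) : ℝ :=
  Real.log (norm1 F) + k * Real.log (height x) - Real.log |((eval x F : ℤ) : ℝ)|

/-- The local height at the prime `p` of the divisor `F = 0` at the point with coprime homogeneous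
coordinates `x`: `v_p(F(x)) log p`. -/
noncomputable def localP {N : ℕ} (p : ℕ) (F : MvPolynomial (Fin (N + 1)) ℤ)
    (x : Fin (N + 1) → ℤ) : ℝ :=
  (padicValInt p (eval x F) : ℝ) * Real.log p

/-- The local height of the ideal generated by the monomials `∏ F_j ^ b_j`, `b ∈ T`, when the divisors
`F_j = 0` have local heights `L j`: the least of the numbers `∑ b_j L j`. -/
noncomputable def localIdeal {q : ℕ} (T : Set (Fin q → ℕ)) (L : Fin q → ℝ) : ℝ :=
  ⨅ b : T, ∑ j, ((b.1 j : ℕ) : ℝ) * L j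

/-- The exponents `b` for which `b + (1, …, 1)` lies in the Newton polyhedron (convex hull plus the
positive orthant) of `E`. By Howald's formula they are the exponents of the ideal `I⁻` for the ideal
`I` generated by the monomials with exponents in `E`, for divisors with normal crossings. -/
def minus {q : ℕ} (E : Finset (Fin q → ℕ)) : Set (Fin q → ℕ) :=
  {b | ∃ w : (Fin q → ℕ) → ℝ, (∀ a ∈ E, 0 ≤ w a) ∧ ∑ a ∈ E, w a = 1 ∧
    ∀ j, ∑ a ∈ E, w a * (a j : ℝ) ≤ (b j : ℝ) + 1}

/-- `∑_v (λ_I(x,v) - λ_{I⁻}(x,v))` over the places `∞` and `p ∈ S`, for the ideal `I` generated by the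
monomials in the `F_j` with exponents in `E`. -/
noncomputable def gap {N q : ℕ} (E : Finset (Fin q → ℕ)) (S : Finset ℕ) (k : Fin q → ℕ)
    (F : Fin q → MvPolynomial (Fin (N + 1)) ℤ) (x : Fin (N + 1) → ℤ) : ℝ :=
  (localIdeal E (fun j => localInf (F j) (k j) x) -
      localIdeal (minus E) (fun j => localInf (F j) (k j) x)) +
    ∑ p ∈ S, (localIdeal E (fun j => localP p (F j) x) -
      localIdeal (minus E) (fun j => localP p (F j) x))

/-- `N_S(D,x) - N¹_S(D,x)`, the counting function minus the truncated counting function of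
`D : ∏ F_j = 0`: the sum of `(v_p(n) - 1) log p` over the primes `p` outside `S` which divide the
value `n = ∏ F_j(x)`. -/
noncomputable def surplus {N q : ℕ} (S : Finset ℕ) (F : Fin q → MvPolynomial (Fin (N + 1)) ℤ)
    (x : Fin (N + 1) → ℤ) : ℝ :=
  ∑ p ∈ (∏ j, eval x (F j)).natAbs.primeFactors \ S,
    ((padicValInt p (∏ j, eval x (F j)) : ℝ) - 1) * Real.log p

/-- For the pair `P = (G, F)` the inequality
`(∑ e - a) log |x| + gap + surplus ≤ ε log |x| - (q + r - η) log A + ∑ log ‖F_j‖₁`
fails for some point `x` in `V` on `X : G = 0` and off the divisors `F_j = 0`, cut out by linear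
equations with coefficients at most `A`, and some ideal generated by monomials in the `F_j`. -/
def Fails {N r q : ℕ} (e : Fin r → ℕ) (k : Fin q → ℕ) (S : Finset ℕ)
    (V : Set (Fin (N + 1) → ℤ)) (a ε η : ℝ) (A : ℕ)
    (P : (Fin r → MvPolynomial (Fin (N + 1)) ℤ) × (Fin q → MvPolynomial (Fin (N + 1)) ℤ)) : Prop :=
  ∃ x ∈ V, Coprime x ∧ CutOut A x ∧ (∀ i, eval x (P.1 i) = 0) ∧ (∀ j, eval x (P.2 j) ≠ 0) ∧
    ∃ E : Finset (Fin q → ℕ), E.Nonempty ∧
      ε * Real.log (height x) - ((q : ℝ) + r - η) * Real.log A + ∑ j, Real.log (norm1 (P.2 j)) <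
        (∑ i, (e i : ℝ) - a) * Real.log (height x) + gap E S k P.2 x + surplus S P.2 x

/-- **Vojta's inequality with multiplier ideal correction, for all monomial ideals in random
forms.** -/
theorem result (N r q : ℕ) (e : Fin r → ℕ) (k : Fin q → ℕ) (S : Finset ℕ)
    (hS : ∀ p ∈ S, p.Prime) (ε η : ℝ) (hε : 0 < ε) (hη : 0 < η) :
    -- points of height at most `A` are cut out by equations with coefficients at most `A`
    (∀ (A : ℕ) (x : Fin (N + 1) → ℤ), x ≠ 0 → height x ≤ A → CutOut A x) ∧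
    -- all rational points of the complete intersections
    (∃ C : ℝ, ∀ A : ℕ, 1 ≤ A →
      ({P ∈ Pairs N e k A | Fails e k S Set.univ (N + 1) ε η A P}.ncard : ℝ) ≤
        C * (A : ℝ) ^ (-(η / 2)) * ((Pairs N e k A).ncard : ℝ)) ∧
    -- points in a set of given growth
    (∀ (V : Set (Fin (N + 1) → ℤ)) (a C₀ : ℝ), 0 ≤ a →
      (∀ B : ℕ, 1 ≤ B → ({x ∈ V | height x ≤ B}.ncard : ℝ) ≤ C₀ * (B : ℝ) ^ a) →
      ∃ C : ℝ, ∀ A : ℕ, 1 ≤ A →
        ({P ∈ Pairs N e k A | Fails e k S V a ε η A P}.ncard : ℝ) ≤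
          C * (A : ℝ) ^ (-(η / 2)) * ((Pairs N e k A).ncard : ℝ)) := by
  have h3 : ∀ (V : Set (Fin (N + 1) → ℤ)) (a C₀ : ℝ), 0 ≤ a →
      (∀ B : ℕ, 1 ≤ B → ({x ∈ V | height x ≤ B}.ncard : ℝ) ≤ C₀ * (B : ℝ) ^ a) →
      ∃ C : ℝ, ∀ A : ℕ, 1 ≤ A →
        ({P ∈ Pairs N e k A | Fails e k S V a ε η A P}.ncard : ℝ) ≤
          C * (A : ℝ) ^ (-(η / 2)) * ((Pairs N e k A).ncard : ℝ) :=
    fun V a C₀ ha hV => Y731.RD.main_ideal N e k S hS V ha hV hε hη
  refine ⟨fun A x hx hA => Y731.RD.cut_of_le hx fun j => ?_, ?_, h3⟩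
  · have h4 := Y731.RD.le_nrm x j
    have h5 : Y731.RD.nrm x ≤ A := hA
    rw [Int.abs_eq_natAbs]
    omega
  · refine h3 Set.univ (N + 1) (3 ^ (N + 1)) (by positivity) fun B hB => ?_
    have h4 := Y731.RD.growth_univ (N + 1) B hB
    push_cast at h4
    have h5 : {x ∈ (Set.univ : Set (Fin (N + 1) → ℤ)) | height x ≤ B} =
        {x : Fin (N + 1) → ℤ | Y731.RD.nrm x ≤ B} := by
      ext x
      simp only [Set.mem_ofPred_eq, Set.mem_univ, true_and]
      rfl
    rw [h5]; exact h4

end Pool.Agent.Results.MP_8865d3_nt.RandomIdeals
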