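import Mathlib
import Pool.Agent.Y902.GN.Cmp2

/-!
# Rational points close to sums of few high powers of linear forms

For all `n`, `m`, `E`, `q` and `ε > 0` there are `R` and `δ > 0` such that for every `Y ≥ 1`, every
degree `d` with `R ≤ d ≤ Y ^ δ`, all integers `u 1, …, u m` of absolute value at most `exp (Y ^ δ)`,
all linear forms `h 1, …, h m` in `n` variables with integer coefficients of absolute value at most
`Y ^ E` and every set `S` of at most `q` primes the following holds for the forms
`F s = ∑ u i * s i * h i ^ d`, where the `s i` are integers with `0 < |s i| ≤ Y ^ E`, and the integer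
vectors `x` with `|x j| ≤ Y` for which the part of `F s x` prime to `S` is at most `Y ^ E`. (For
primitive `x` this means that the sum of the local heights of `x` relative to the divisor
`D s : F s = 0` over the places in `S` and the archimedean one is at least `d * h x - E * log Y`, up
to a bounded function; it is never larger than `d * h x`.)

* There are at most `Y ^ ε` affine subspaces, defined over `ℚ`, such that each of these vectors, for
  each `F s`, lies in one of them on which `F s` is constant. (If such a subspace is not a point, the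
  complement of `D s` contains an affine line through `x`.)
* There are at most `Y ^ ε` of these vectors with the additional property that the complement of
  `D s` is Brody hyperbolic.

Method: ultraproduct, `p`-adic determinant method with unbounded exponents as coefficients, isotypic
decomposition of the differential module of relations; the `S`-unit is one more term, with the base
`1`, and the part prime to `S` is its coefficient.
-/

set_option autoImplicit false

namespace Pool.Agent.Results.MP_8865d3_nt.SumsOfPowersProximity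

/-- the form `∑ a i * (h i) (x) ^ d` of degree `d` with integer coefficients, over any ring -/
def form {R : Type} [CommRing R] {n m : ℕ} (a : Fin m → ℤ) (h : Fin m → Fin n → ℤ) (d : ℕ)
    (x : Fin n → R) : R := ∑ i, (a i : R) * (∑ j, (h i j : R) * x j) ^ d

/-- `z` is not zero, and its part prime to `S` is at most `B`: it is the product of an integer of
absolute value at most `B` and of an integer all of whose prime factors are in `S` -/
def SmallOutside (S : Finset ℕ) (B : ℤ) (z : ℤ) : Prop :=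
  ∃ t η : ℤ, z = t * η ∧ t ≠ 0 ∧ |t| ≤ B ∧ η ≠ 0 ∧ ∀ p : ℕ, p.Prime → (p : ℤ) ∣ η → p ∈ S

/-- every holomorphic map from `ℂ` to the complement of the hypersurface is constant (such a map is
given by holomorphic homogeneous coordinates at which the form has no zeros) -/
def HyperbolicComplement {n m : ℕ} (a : Fin m → ℤ) (h : Fin m → Fin n → ℤ) (d : ℕ) : Prop :=
  ∀ f : ℂ → Fin n → ℂ, (∀ j, Differentiable ℂ fun z => f z j) →
    (∀ z, form a h d (f z) ≠ 0) → ∀ z w, ∃ c : ℂ, f z = c • f w

/-- the integer vectors `x` with `|x j| ≤ Y` such that, for some `s` with `0 < |s i| ≤ Y ^ E`,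
the part of `F s x` prime to `S` is at most `Y ^ E` and the complement of `F s = 0` is Brody
hyperbolic -/
def HyperbolicPoints (n m E d Y : ℕ) (S : Finset ℕ) (u : Fin m → ℤ) (h : Fin m → Fin n → ℤ) :
    Set (Fin n → ℤ) :=
  {x | (∀ j, |x j| ≤ (Y : ℤ)) ∧
    ∃ s : Fin m → ℤ, (∀ i, s i ≠ 0 ∧ |s i| ≤ (Y : ℤ) ^ E) ∧
      SmallOutside S ((Y : ℤ) ^ E) (form (fun i => u i * s i) h d x) ∧
      HyperbolicComplement (fun i => u i * s i) h d}

open Pool.Agent.Y902.GN

theorem form_int {n m : ℕ} (u s : Fin m → ℤ) (h : Fin m → Fin n → ℤ) (d : ℕ) (x : Fin n → ℤ) :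
    form (fun i => u i * s i) h d x = spF u h d s x := by
  unfold form spF lin
  refine Finset.sum_congr rfl fun i _ => ?_
  simp only [Int.cast_id]
  ring

theorem form_rat {n m : ℕ} (u s : Fin m → ℤ) (h : Fin m → Fin n → ℤ) (d : ℕ) (z : Fin n → ℚ) :
    form (fun i => u i * s i) h d z = spFQ u h d s z := by
  unfold form spFQ linQ
  refine Finset.sum_congr rfl fun i _ => ?_
  push_cast
  ring

/-- if the complement is hyperbolic, the form is not constant on a line through `x` with a nonzero
value -/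
theorem line_const {n m : ℕ} {a : Fin m → ℤ} {h : Fin m → Fin n → ℤ} {d : ℕ} (hd : d ≠ 0)
    (H : HyperbolicComplement a h d) {x : Fin n → ℤ} {y : Fin n → ℚ}
    (h0 : form a h d x ≠ 0)
    (hc : ∀ t : ℚ, form a h d (fun j => (x j : ℚ) + t * y j) = ((form a h d x : ℤ) : ℚ)) : y = 0 := by
  have hall : ∀ t : ℂ, form a h d (fun j => (x j : ℂ) + t * (y j : ℂ)) = ((form a h d x : ℤ) : ℂ) := by
    obtain ⟨p, hp⟩ : ∃ p : Polynomial ℂ, ∀ t : ℂ, p.eval t =
        form a h d (fun j => (x j : ℂ) + t * (y j : ℂ)) - ((form a h d x : ℤ) : ℂ) := by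
      refine ⟨∑ i, Polynomial.C (a i : ℂ) * (∑ j, Polynomial.C (h i j : ℂ) *
        (Polynomial.C (x j : ℂ) + Polynomial.X * Polynomial.C (y j : ℂ))) ^ d -
        Polynomial.C ((form a h d x : ℤ) : ℂ), fun z => ?_⟩
      unfold form
      simp [Polynomial.eval_finsetSum, mul_comm z]
    have h1 : p = 0 := by
      apply Polynomial.eq_zero_of_infinite_isRoot
      refine Set.Infinite.mono (s := Set.range (Rat.cast : ℚ → ℂ)) ?_
        (Set.infinite_range_of_injective Rat.cast_injective)
      rintro _ ⟨t, rfl⟩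
      show p.eval (t : ℂ) = 0
      rw [hp, sub_eq_zero]
      have h2 := congrArg (Rat.cast : ℚ → ℂ) (hc t)
      unfold form at h2 ⊢
      push_cast at h2 ⊢
      exact h2
    intro t
    have h2 := hp t
    rw [h1, Polynomial.eval_zero] at h2
    exact (sub_eq_zero.1 h2.symm)
  have h0' : ((form a h d x : ℤ) : ℂ) ≠ 0 := by exact_mod_cast h0
  obtain ⟨c, hc1⟩ := H (fun t j => (x j : ℂ) + t * (y j : ℂ)) (fun j => by fun_prop)
    (fun t => by rw [hall t]; exact h0') 1 0
  have hy : ∀ j, (y j : ℂ) = (c - 1) * (x j : ℂ) := by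
    intro j
    have := congrFun hc1 j
    simp only [Pi.smul_apply, smul_eq_mul] at this
    linear_combination this
  by_cases hc2 : c - 1 = 0
  · funext j
    have := hy j
    rw [hc2, zero_mul] at this
    exact_mod_cast this
  · exfalso
    apply h0'
    rw [← hall (-(c - 1)⁻¹)]
    unfold form
    refine Finset.sum_eq_zero fun i _ => ?_
    have h3 : ∑ j, (h i j : ℂ) * ((x j : ℂ) + -(c - 1)⁻¹ * (y j : ℂ)) = 0 := by
      refine Finset.sum_eq_zero fun j _ => ?_
      rw [hy j]
      field_simp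
      ring
    rw [h3, zero_pow hd, mul_zero]

/-- For all `n`, `m`, `E`, `q` and `ε > 0` there are `R` and `δ > 0` such that for all `Y ≥ 1`, all
`d` with `R ≤ d ≤ Y ^ δ`, all integers `|u i| ≤ exp (Y ^ δ)`, all linear forms `h i` with integer
coefficients of absolute value at most `Y ^ E` and all sets `S` of at most `q` primes: the integer
vectors `x`, `|x j| ≤ Y`, such that the part of `F s x` prime to `S` is at most `Y ^ E` lie in at
most `Y ^ ε` affine subspaces with constant `F s`, and for at most `Y ^ ε` of them the complement of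
`F s = 0` is hyperbolic. -/
theorem result (n m E q : ℕ) (ε : ℝ) (hε : 0 < ε) : ∃ (R : ℕ) (δ : ℝ), 0 < δ ∧
    ∀ (Y d : ℕ) (u : Fin m → ℤ) (h : Fin m → Fin n → ℤ) (S : Finset ℕ), 1 ≤ Y → R ≤ d →
      (d : ℝ) ≤ (Y : ℝ) ^ δ → (∀ i, ((|u i| : ℤ) : ℝ) ≤ Real.exp ((Y : ℝ) ^ δ)) →
      (∀ i j, |h i j| ≤ (Y : ℤ) ^ E) → S.card ≤ q →
      (∃ L : Finset (AffineSubspace ℚ (Fin n → ℚ)), (L.card : ℝ) ≤ (Y : ℝ) ^ ε ∧
        ∀ (x : Fin n → ℤ) (s : Fin m → ℤ), (∀ j, |x j| ≤ (Y : ℤ)) →
          (∀ i, s i ≠ 0 ∧ |s i| ≤ (Y : ℤ) ^ E) →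
          SmallOutside S ((Y : ℤ) ^ E) (form (fun i => u i * s i) h d x) →
          ∃ W ∈ L, (fun j => (x j : ℚ)) ∈ W ∧ ∀ z ∈ W,
            form (fun i => u i * s i) h d z = ((form (fun i => u i * s i) h d x : ℤ) : ℚ)) ∧
      ((HyperbolicPoints n m E d Y S u h).Finite ∧
        ((HyperbolicPoints n m E d Y S u h).ncard : ℝ) ≤ (Y : ℝ) ^ ε) := by
  classical
  obtain ⟨R, δ, hδ, H⟩ := cmplt n m E q ε hε
  refine ⟨R + 1, δ, hδ, fun Y d u h S hY hd hdY hu hh hS => ?_⟩
  have hcov : ∃ L : Finset (AffineSubspace ℚ (Fin n → ℚ)), (L.card : ℝ) ≤ (Y : ℝ) ^ ε ∧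
        ∀ (x : Fin n → ℤ) (s : Fin m → ℤ), (∀ j, |x j| ≤ (Y : ℤ)) →
          (∀ i, s i ≠ 0 ∧ |s i| ≤ (Y : ℤ) ^ E) →
          SmallOutside S ((Y : ℤ) ^ E) (form (fun i => u i * s i) h d x) →
          ∃ W ∈ L, (fun j => (x j : ℚ)) ∈ W ∧ ∀ z ∈ W,
            form (fun i => u i * s i) h d z = ((form (fun i => u i * s i) h d x : ℤ) : ℚ) := by
    obtain ⟨L, hL1, hL2⟩ := H Y hY d (by omega) hdY u hu h hh S hS
    refine ⟨L, hL1, fun x s hx hs hSU => ?_⟩
    obtain ⟨t, η, h1, h2, h3, h4, h5⟩ := hSU
    rw [form_int] at h1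
    obtain ⟨W, hW, hxW, hz⟩ := hL2 x s t η hx hs h2 h3 ⟨h4, h5⟩ h1
    refine ⟨W, hW, hxW, fun z hzW => ?_⟩
    rw [form_rat, form_int]
    exact hz z hzW
  refine ⟨hcov, ?_⟩
  obtain ⟨L, hL1, hL2⟩ := hcov
  refine fin_of_bound _ _ fun T hT => ?_
  have hT' : ∀ x, x ∈ T → ∃ W ∈ L, (fun j => (x j : ℚ)) ∈ W ∧ ∀ z ∈ W,
      z = fun j => (x j : ℚ) := by
    intro x hx
    obtain ⟨h1, s, h2, h3, h4⟩ := hT x hx
    obtain ⟨W, hW, hxW, hz⟩ := hL2 x s h1 h2 h3
    refine ⟨W, hW, hxW, fun z hzW => ?_⟩
    have h0 : form (fun i => u i * s i) h d x ≠ 0 := by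
      obtain ⟨t, η, k1, k2, _, k4, _⟩ := h3
      rw [k1]
      exact mul_ne_zero k2 k4
    have h5 : z - (fun j => (x j : ℚ)) = 0 := by
      refine line_const (x := x) (by omega) h4 h0 fun t => ?_
      apply hz
      have h6 := W.smul_vsub_vadd_mem t hzW hxW hxW
      have h7 : (fun j => (x j : ℚ) + t * (z - fun j => (x j : ℚ)) j) =
          t • (z -ᵥ fun j => (x j : ℚ)) +ᵥ (fun j => (x j : ℚ)) := by
        funext j
        simp [vsub_eq_sub, vadd_eq_add]
        ring
      rw [h7]
      exact h6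
    exact sub_eq_zero.1 h5
  choose! W hW1 hW2 hW3 using hT'
  have hle : T.card ≤ L.card := by
    refine Finset.card_le_card_of_injOn W (fun x hx => hW1 x hx) ?_
    intro x hx x' hx' hxx
    have h1 := hW2 x' hx'
    rw [← hxx] at h1
    have h2 := hW3 x hx _ h1
    funext j
    have h3 := congrFun h2 j
    simp only [Int.cast_inj] at h3
    exact h3.symm
  exact le_trans (by exact_mod_cast hle) hL1

end Pool.Agent.Results.MP_8865d3_nt.SumsOfPowersProximity
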